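import Pool.Agent.H927.QP.St

/-!
Part of the solution of MP_df4ecf_al (helper927): congruence filtration versus lower central series.
-/

set_option autoImplicit false

open scoped TensorProduct commutatorElement

noncomputable section

namespace Pool.Agent.H927.QP.Part_claim

open Pool.Agent.H297.QL (Gr gam cl gbr comp hc LV inc lift)

attribute [local instance 100] LieRing.ofAssociativeRing

section cong

variable {V V' : Type} [AddCommGroup V] [Module K V] [AddCommGroup V'] {q : V →+ V'}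

lemma cong_add {a b : Module.End K V} {ν μ : AddMonoid.End V'} (ha : cong q a ν)
    (hb : cong q b μ) : cong q (a + b) (ν + μ) := by
  intro v
  obtain ⟨w, hw⟩ := ha v
  obtain ⟨w', hw'⟩ := hb v
  refine ⟨w + w', ?_⟩
  have h : (ν + μ) (q v) = ν (q v) + μ (q v) := rfl
  rw [LinearMap.add_apply, map_add, hw, hw', h, smul_add]
  abel

lemma cong_neg {a : Module.End K V} {ν : AddMonoid.End V'} (ha : cong q a ν) :
    cong q (-a) (-ν) := by
  intro v
  obtain ⟨w, hw⟩ := ha v
  refine ⟨-w, ?_⟩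
  have h : (-ν) (q v) = -(ν (q v)) := rfl
  rw [LinearMap.neg_apply, map_neg, hw, h, smul_neg]
  abel

lemma cong_mul {a b : Module.End K V} {ν μ : AddMonoid.End V'} (ha : cong q a ν)
    (hb : cong q b μ) : cong q (a * b) (ν * μ) := by
  intro v
  obtain ⟨w, hw⟩ := ha (b v)
  obtain ⟨w', hw'⟩ := hb v
  refine ⟨ν w' + w, ?_⟩
  have h : (ν * μ) (q v) = ν (μ (q v)) := rfl
  rw [Module.End.mul_apply, hw, hw', map_add, map_nsmul, h, smul_add]
  abel

lemma two_smul_K (v : V) : (2 : K) • v = v + v := by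
  have h : (2 : K) = 1 + 1 := by norm_num
  rw [h, add_smul, one_smul]

lemma cong_two (b : Module.End K V) : cong q ((2 : K) • b) (0 : AddMonoid.End V') := by
  intro v
  refine ⟨q (b v), ?_⟩
  have h : (0 : AddMonoid.End V') (q v) = 0 := rfl
  rw [LinearMap.smul_apply, two_smul_K, map_add, h, two_smul, zero_add]

lemma cong_two' (b : Module.End K V) {k : ℕ} (hk : 1 ≤ k) :
    cong q (((2 : K) ^ k) • b) (0 : AddMonoid.End V') := by
  obtain ⟨j, rfl⟩ := Nat.exists_eq_add_of_le' hk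
  have h : ((2 : K) ^ (j + 1)) • b = (2 : K) • (((2 : K) ^ j) • b) := by
    rw [smul_smul, pow_succ']
  rw [h]
  exact cong_two _

lemma cong_one : cong q (1 : Module.End K V) (1 : AddMonoid.End V') := by
  intro v
  refine ⟨0, ?_⟩
  rw [Module.End.one_apply, smul_zero, add_zero]
  rfl

/-- multiplication by a unit congruent to `1` does not change the class -/
lemma cong_unit {a c : Module.End K V} {ν : AddMonoid.End V'} (ha : cong q a ν)
    (hc : cong q c (1 : AddMonoid.End V')) : cong q (a * c) ν := by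
  have := cong_mul ha hc
  rwa [mul_one] at this

end cong

/-- the inverse of a unit `1 + 2 ^ k a` -/
lemma inv_eq {V : Type} [AddCommGroup V] [Module K V] (A : (Module.End K V)ˣ) {k : ℕ}
    {a : Module.End K V} (h : ((A : (Module.End K V)ˣ) : Module.End K V) = 1 + ((2 : K) ^ k) • a) :
    ((A⁻¹ : (Module.End K V)ˣ) : Module.End K V) =
      1 + ((2 : K) ^ k) • (-(a * ((A⁻¹ : (Module.End K V)ˣ) : Module.End K V))) := by
  have h1 : (A : Module.End K V) * ((A⁻¹ : (Module.End K V)ˣ) : Module.End K V) = 1 := A.mul_inv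
  rw [h, add_mul, one_mul, smul_mul_assoc] at h1
  rw [smul_neg, ← sub_eq_add_neg]
  exact eq_sub_of_add_eq h1

lemma inv_cong {V V' : Type} [AddCommGroup V] [Module K V] [AddCommGroup V'] {q : V →+ V'}
    (A : (Module.End K V)ˣ) {k : ℕ} (hk : 1 ≤ k)
    {a : Module.End K V} (h : ((A : (Module.End K V)ˣ) : Module.End K V) = 1 + ((2 : K) ^ k) • a) :
    cong q ((A⁻¹ : (Module.End K V)ˣ) : Module.End K V) (1 : AddMonoid.End V') := by
  rw [inv_eq A h]
  have := cong_add (q := q) cong_one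
    (cong_two' (-(a * ((A⁻¹ : (Module.End K V)ˣ) : Module.End K V))) hk)
  rwa [add_zero] at this

lemma hc_inv {G : Type} [Group G] {k : ℕ} {g : G} (hg : g ∈ gam G k) (hg' : g⁻¹ ∈ gam G k) :
    hc k g⁻¹ hg' = - hc k g hg := by
  have h := Pool.Agent.H297.QL.hc_add hg hg'
  have h0 : hc k (g * g⁻¹) (Subgroup.mul_mem _ hg hg') = 0 :=
    Pool.Agent.H297.QL.hc_zero _ (by rw [mul_inv_cancel]; exact Subgroup.one_mem _)
  rw [h0] at h
  exact (neg_eq_of_add_eq_zero_right h).symm

section main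

variable {V V' : Type} [AddCommGroup V] [Module K V] [AddCommGroup V']
  (q : V →+ V') {G : Type} [Group G]
  (h : LV (Gr G 1) →ₗ⁅ℤ⁆ Pool.Agent.H297.QL.E G) (t : Gr G 1 →+ Gr G 1)
  (φ : Gr G 1 →+ AddMonoid.End V')

/-- the property to be proved -/
def QQ (k : ℕ) (p : (Module.End K V)ˣ × G) : Prop :=
  ∃ (x : LV (Gr G 1)) (a : Module.End K V) (hp : p.2 ∈ gam G k),
    h x = comp k (cl k p.2 hp) ∧
    ((p.1 : (Module.End K V)ˣ) : Module.End K V) = 1 + ((2 : K) ^ k) • a ∧
    cong q a (lift (φ.comp t) x)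

lemma QQ_one (k : ℕ) : QQ q h t φ k (1 : (Module.End K V)ˣ × G) := by
  refine ⟨0, 0, Subgroup.one_mem _, ?_, ?_, ?_⟩
  · rw [map_zero]
    exact (Pool.Agent.H297.QL.hc_zero (Subgroup.one_mem _) (Subgroup.one_mem _)).symm
  · rw [smul_zero, add_zero]; rfl
  · rw [map_zero]
    intro v
    refine ⟨0, ?_⟩
    rw [LinearMap.zero_apply, map_zero, smul_zero, add_zero]
    rfl

lemma QQ_mul {k : ℕ} (hk : 1 ≤ k) {p p' : (Module.End K V)ˣ × G} (hp : QQ q h t φ k p)
    (hp' : QQ q h t φ k p') : QQ q h t φ k (p * p') := by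
  obtain ⟨x, a, hg, e1, e2, e3⟩ := hp
  obtain ⟨x', a', hg', e1', e2', e3'⟩ := hp'
  refine ⟨x + x', a + a' + ((2 : K) ^ k) • (a * a'), Subgroup.mul_mem _ hg hg', ?_, ?_, ?_⟩
  · rw [map_add, e1, e1']
    exact Pool.Agent.H297.QL.hc_add hg hg'
  · have h1 : (((p * p').1 : (Module.End K V)ˣ) : Module.End K V) =
        (p.1 : Module.End K V) * (p'.1 : Module.End K V) := rfl
    rw [h1, e2, e2']
    simp only [add_mul, mul_add, one_mul, mul_one, smul_add, smul_mul_assoc, mul_smul_comm]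
    abel
  · rw [map_add]
    have := cong_add (cong_add e3 e3') (cong_two' (q := q) (a * a') hk)
    rwa [add_zero] at this

lemma QQ_inv {k : ℕ} (hk : 1 ≤ k) {p : (Module.End K V)ˣ × G} (hp : QQ q h t φ k p) :
    QQ q h t φ k p⁻¹ := by
  obtain ⟨x, a, hg, e1, e2, e3⟩ := hp
  refine ⟨-x, -(a * (((p.1)⁻¹ : (Module.End K V)ˣ) : Module.End K V)),
    Subgroup.inv_mem _ hg, ?_, ?_, ?_⟩
  · rw [map_neg, e1]
    exact (hc_inv hg (Subgroup.inv_mem _ hg)).symm
  · exact inv_eq p.1 e2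
  · rw [map_neg]
    exact cong_neg (cong_unit e3 (inv_cong p.1 hk e2))

lemma QQ_comm {k : ℕ} (hk : 1 ≤ k) {p p' : (Module.End K V)ˣ × G} (hp : QQ q h t φ k p)
    (hp' : QQ q h t φ 1 p') : QQ q h t φ (k + 1) ⁅p, p'⁆ := by
  obtain ⟨x, a, hg, e1, e2, e3⟩ := hp
  obtain ⟨x', a', hg', e1', e2', e3'⟩ := hp'
  refine ⟨⁅x, x'⁆, (a * a' - a' * a) * (((p.1)⁻¹ : (Module.End K V)ˣ) : Module.End K V) *
    (((p'.1)⁻¹ : (Module.End K V)ˣ) : Module.End K V),
    Pool.Agent.H297.QL.comm_mem hg hg', ?_, ?_, ?_⟩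
  · rw [LieHom.map_lie, e1, e1']
    exact Pool.Agent.H297.QL.lie_hc hg hg'
  · have h1 : (((⁅p, p'⁆ : (Module.End K V)ˣ × G).1 : (Module.End K V)ˣ) : Module.End K V) =
        (p.1 : Module.End K V) * (p'.1 : Module.End K V) *
          (((p.1)⁻¹ : (Module.End K V)ˣ) : Module.End K V) *
          (((p'.1)⁻¹ : (Module.End K V)ˣ) : Module.End K V) := rfl
    rw [h1]
    have h2 : (p.1 : Module.End K V) * (p'.1 : Module.End K V) =
        (p'.1 : Module.End K V) * (p.1 : Module.End K V) +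
          ((2 : K) ^ (k + 1)) • (a * a' - a' * a) := by
      rw [e2, e2']
      have h3 : (2 : K) ^ k * 2 = 2 ^ (k + 1) := (pow_succ _ _).symm
      have h4 : (2 : K) * 2 ^ k = 2 ^ (k + 1) := (pow_succ' _ _).symm
      simp only [add_mul, mul_add, one_mul, mul_one, smul_sub, smul_mul_assoc,
        mul_smul_comm, smul_add, smul_smul, pow_one, h3, h4]
      abel
    rw [h2, add_mul, add_mul, smul_mul_assoc, smul_mul_assoc, mul_assoc (p'.1 : Module.End K V),
      p.1.mul_inv, mul_one, p'.1.mul_inv]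
  · have e4 := inv_cong (q := q) p.1 hk e2
    have e5 := inv_cong (q := q) p'.1 le_rfl e2'
    have e6 : cong q (a * a' - a' * a) (lift (φ.comp t) ⁅x, x'⁆) := by
      rw [LieHom.map_lie, Ring.lie_def, sub_eq_add_neg, sub_eq_add_neg]
      exact cong_add (cong_mul e3 e3') (cong_neg (cong_mul e3' e3))
    exact cong_unit (cong_unit e6 e4) e5

end main

/-- see above -/
theorem claim : S_claim := by
  intro V V' _ _ _ q G _ h t ht hh φ P hP
  have h1 : ∀ p ∈ P, QQ q h t φ 1 p := by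
    intro p hp
    obtain ⟨a, e1, e2⟩ := hP p hp
    obtain ⟨v, hv⟩ := ht (cl 1 p.2 (Subgroup.mem_top _))
    refine ⟨inc v, a, Subgroup.mem_top _, ?_, ?_, ?_⟩
    · rw [hh, hv]
    · rw [pow_one]; exact e1
    · rw [Pool.Agent.H297.QL.lift_inc, AddMonoidHom.comp_apply, hv]
      exact e2
  have h2 : ∀ k : ℕ, ∀ p ∈ gam P (k + 1), QQ q h t φ (k + 1) (p : (Module.End K V)ˣ × G) := by
    intro k
    induction k with
    | zero =>
      intro p _
      exact h1 p p.2
    | succ k ih =>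
      let S : Subgroup P :=
        { carrier := {p | QQ q h t φ (k + 1 + 1) (p : (Module.End K V)ˣ × G)}
          one_mem' := QQ_one q h t φ _
          mul_mem' := fun {a b} ha hb => QQ_mul q h t φ (by omega) ha hb
          inv_mem' := fun {a} ha => QQ_inv q h t φ (by omega) ha }
      have hS : gam P (k + 1 + 1) ≤ S := by
        rw [Pool.Agent.H297.QL.gam_add_two, Subgroup.commutator_le]
        intro g₁ hg₁ g₂ _
        exact QQ_comm q h t φ (by omega) (ih g₁ hg₁) (h1 g₂ g₂.2)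
      intro p hp
      exact hS hp
  intro k hk p hp
  obtain ⟨j, rfl⟩ := Nat.exists_eq_add_of_le' hk
  exact h2 j p hp

end Pool.Agent.H927.QP.Part_claim
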