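import Pool.Agent.H927.QP.St

/-!
Part of the solution of MP_df4ecf_al (helper927): the product of iterated commutators lies in `Γ_9`.
-/

set_option autoImplicit false

open scoped TensorProduct commutatorElement

noncomputable section

namespace Pool.Agent.H927.QP.Part_grp

open Pool.Agent.H297.QL (Gr gam cl gbr comp hc LV inc lift)

attribute [local instance 100] LieRing.ofAssociativeRing

section

variable {P : Type} [Group P]

lemma gm1 (g : P) : g ∈ gam P 1 := Subgroup.mem_top g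

lemma comW_mem (s : Fin 3 → P) (z : P) (hz : z ∈ gam P 2) :
    ∀ w : List (Fin 3), comW s z w ∈ gam P (w.length + 2)
  | [] => hz
  | l :: w => Pool.Agent.H297.QL.comm_succ' (k := w.length + 2) (comW_mem s z hz w) (s l)

lemma adW_eq (s : Fin 3 → P) (z : P) (hz : z ∈ gam P 2) :
    ∀ w : List (Fin 3), adW (fun l => hc 1 (s l) (gm1 (s l))) (hc 2 z hz) w =
      hc (w.length + 2) (comW s z w) (comW_mem s z hz w)
  | [] => rfl
  | l :: w => by
      have h1 : adW (fun l => hc 1 (s l) (gm1 (s l))) (hc 2 z hz) (l :: w) =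
          ⁅hc 1 (s l) (gm1 (s l)),
            adW (fun l => hc 1 (s l) (gm1 (s l))) (hc 2 z hz) w⁆ := rfl
      rw [h1, adW_eq s z hz w, Pool.Agent.H297.QL.lie_hc (gm1 (s l)) (comW_mem s z hz w)]
      exact Pool.Agent.H297.QL.hc_eq (by rw [List.length_cons]; omega) _ _ rfl

lemma hc_inv {k : ℕ} {g : P} (hg : g ∈ gam P k) (hg' : g⁻¹ ∈ gam P k) :
    hc k g⁻¹ hg' = - hc k g hg := by
  have h := Pool.Agent.H297.QL.hc_add hg hg'
  have h0 : hc k (g * g⁻¹) (Subgroup.mul_mem _ hg hg') = 0 :=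
    Pool.Agent.H297.QL.hc_zero _ (by rw [mul_inv_cancel]; exact Subgroup.one_mem _)
  rw [h0] at h
  exact (neg_eq_of_add_eq_zero_right h).symm

lemma hc_one (k : ℕ) (h1 : (1 : P) ∈ gam P k) : hc k (1 : P) h1 = 0 :=
  Pool.Agent.H297.QL.hc_zero _ (Subgroup.one_mem _)

lemma hc_pow {k : ℕ} {g : P} (hg : g ∈ gam P k) (n : ℕ) :
    hc k (g ^ n) (Subgroup.pow_mem _ hg n) = n • hc k g hg := by
  induction n with
  | zero =>
    rw [zero_smul]
    exact Pool.Agent.H297.QL.hc_zero _ (by rw [pow_zero]; exact Subgroup.one_mem _)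
  | succ n ih =>
    rw [succ_nsmul, ← ih, Pool.Agent.H297.QL.hc_add]
    congr 1
    exact pow_succ g n

lemma hc_zpow {k : ℕ} {g : P} (hg : g ∈ gam P k) (n : ℤ) :
    hc k (g ^ n) (Subgroup.zpow_mem _ hg n) = n • hc k g hg := by
  rcases n with n | n
  · rw [Int.ofNat_eq_natCast, natCast_zsmul, ← hc_pow hg n]
    congr 1
    exact zpow_natCast g n
  · rw [negSucc_zsmul, ← hc_pow hg (n + 1),
      ← hc_inv (Subgroup.pow_mem _ hg (n + 1)) (Subgroup.inv_mem _ (Subgroup.pow_mem _ hg _))]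
    congr 1
    exact zpow_negSucc g n

lemma sum_eq (s : Fin 3 → P) (z : P) (hz : z ∈ gam P 2) :
    ∀ L : List (ℤ × List (Fin 3)), (∀ p ∈ L, p.2.length = 6) →
      ∃ hm : (L.map fun p => comW s z p.2 ^ p.1).prod ∈ gam P 8,
        (L.map fun p => p.1 • adW (fun l => hc 1 (s l) (gm1 (s l))) (hc 2 z hz) p.2).sum =
          hc 8 (L.map fun p => comW s z p.2 ^ p.1).prod hm
  | [], _ => ⟨Subgroup.one_mem _, (hc_one 8 (Subgroup.one_mem _)).symm⟩
  | p :: L, hL => by
      obtain ⟨hm, e⟩ := sum_eq s z hz L (fun q hq => hL q (List.mem_cons_of_mem _ hq))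
      have hp : p.2.length = 6 := hL p List.mem_cons_self
      have hw : comW s z p.2 ∈ gam P 8 := by
        have := comW_mem s z hz p.2
        rwa [hp] at this
      refine ⟨Subgroup.mul_mem _ (Subgroup.zpow_mem _ hw p.1) hm, ?_⟩
      rw [List.map_cons, List.sum_cons, e, adW_eq s z hz p.2]
      have h2 : hc (p.2.length + 2) (comW s z p.2) (comW_mem s z hz p.2) =
          hc 8 (comW s z p.2) hw := Pool.Agent.H297.QL.hc_eq (by rw [hp]) _ _ rfl
      rw [h2, ← hc_zpow hw, Pool.Agent.H297.QL.hc_add]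
      rfl

end

/-- see above -/
theorem grp (h : S_kappa) : S_grp := by
  intro P _ s ζ N h1 h2 h3 h4 h5 h6 h7
  let br : P → Pool.Agent.H297.QL.E P := fun g => hc 1 g (gm1 g)
  have hbr : ∀ g g' : P, ⁅br g, br g'⁆ =
      hc 2 ⁅g, g'⁆ (Pool.Agent.H297.QL.comm_mem (gm1 g) (gm1 g')) :=
    fun g g' => Pool.Agent.H297.QL.lie_hc (gm1 g) (gm1 g')
  have hbr0 : ∀ g g' : P, ⁅g, g'⁆ = 1 → ⁅br g, br g'⁆ = 0 := by
    intro g g' e
    rw [hbr]
    exact Pool.Agent.H297.QL.hc_zero _ (by rw [e]; exact Subgroup.one_mem _)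
  have hadd : ∀ g g' : P, br g + br g' = br (g * g') := fun g g' =>
    Pool.Agent.H297.QL.hc_add _ _
  let Z : AddSubgroup (Pool.Agent.H297.QL.E P) := AddSubgroup.closure
    {e | ∃ (n : ℕ) (a : P) (ha : a ∈ gam P n), a ∈ N ∧ e = hc n a ha}
  have hmem : ∀ (n : ℕ) (a : P) (ha : a ∈ gam P n), a ∈ N → hc n a ha ∈ Z := fun n a ha haN =>
    AddSubgroup.subset_closure ⟨n, a, ha, haN, rfl⟩
  have key := h (Pool.Agent.H297.QL.E P) (fun k l => br (s k l)) (fun i => br (ζ i)) Z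
    (fun k m j hkm hkj hmj => hbr0 _ _ (h1 k m j hkm hkj hmj))
    (fun i j k hij hik hjk => by
      change ⁅br (s i j) + br (s k j), br (s i k)⁆ = 0
      rw [hadd]
      exact hbr0 _ _ (h2 i j k hij hik hjk))
    (fun k l m hkl hkm hlm => hbr0 _ _ (h3 k l m hkl hkm hlm))
    (by
      change ⁅br (s 0 1), br (ζ 0) + br (ζ 1)⁆ ∈ Z
      rw [hadd, hbr]
      exact hmem _ _ _ h4)
    (by
      change ⁅br (s 1 0), br (ζ 0) + br (ζ 1)⁆ ∈ Z
      rw [hadd, hbr]
      exact hmem _ _ _ h5)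
    (fun k l hkl a ha => by
      change ⁅br (s k l), a⁆ ∈ Z
      induction ha using AddSubgroup.closure_induction with
      | mem e he =>
        obtain ⟨n, g, hg, hgN, rfl⟩ := he
        have e1 : ⁅br (s k l), hc n g hg⁆ = hc (1 + n) ⁅s k l, g⁆
            (Pool.Agent.H297.QL.comm_mem (gm1 _) hg) :=
          Pool.Agent.H297.QL.lie_hc (gm1 _) hg
        rw [e1]
        exact hmem _ _ _ (h6 k l hkl g hgN)
      | zero => rw [lie_zero]; exact AddSubgroup.zero_mem _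
      | add x y _ _ hx hy => rw [lie_add]; exact AddSubgroup.add_mem _ hx hy
      | neg x _ hx => rw [lie_neg]; exact AddSubgroup.neg_mem _ hx)
    (fun m a ha => by
      change ⁅br (ζ m), a⁆ = 0
      induction ha using AddSubgroup.closure_induction with
      | mem e he =>
        obtain ⟨n, g, hg, hgN, rfl⟩ := he
        have e1 : ⁅br (ζ m), hc n g hg⁆ = hc (1 + n) ⁅ζ m, g⁆
            (Pool.Agent.H297.QL.comm_mem (gm1 _) hg) :=
          Pool.Agent.H297.QL.lie_hc (gm1 _) hg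
        rw [e1]
        exact Pool.Agent.H297.QL.hc_zero _ (by rw [h7 m g hgN]; exact Subgroup.one_mem _)
      | zero => exact lie_zero _
      | add x y _ _ hx hy => rw [lie_add, hx, hy, add_zero]
      | neg x _ hx => rw [lie_neg, hx, neg_zero])
  have hz : ⁅ζ 0, ζ 1⁆ ∈ gam P 2 := Pool.Agent.H297.QL.comm_mem (gm1 (ζ 0)) (gm1 (ζ 1))
  obtain ⟨hm, e⟩ := sum_eq (fun l => s (sk l) l) ⁅ζ 0, ζ 1⁆ hz u0 (by decide)
  have e2 : hc 8 (u0.map fun p => comW (fun l => s (sk l) l) ⁅ζ 0, ζ 1⁆ p.2 ^ p.1).prod hm = 0 := by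
    rw [← e]
    have e3 : hc 2 ⁅ζ 0, ζ 1⁆ hz = ⁅br (ζ 0), br (ζ 1)⁆ := (hbr _ _).symm
    rw [e3]
    exact key
  have e4 : cl 8 (u0.map fun p => comW (fun l => s (sk l) l) ⁅ζ 0, ζ 1⁆ p.2 ^ p.1).prod hm =
      cl 8 1 (Subgroup.one_mem _) := by
    have inj : Function.Injective (comp (G := P) 8) := DirectSum.of_injective 8
    apply inj
    have e5 := e2
    rw [← hc_one 8 (Subgroup.one_mem _)] at e5
    exact e5
  have e6 := (Pool.Agent.H297.QL.cl_eq_iff hm (Subgroup.one_mem _)).1 e4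
  exact (QuotientGroup.eq_one_iff _).1 e6

end Pool.Agent.H927.QP.Part_grp
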